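import Mathlib

namespace Pool.Agent.H.MP_d240f8_an

theorem gA_0 (x : ℝ) (h1 : (-1:ℝ) ≤ x) (h2 : x ≤ (-1/2:ℝ)) : 0 ≤ 1 - (2 * ((1 + x) * (1 - x^2)^2) - 1)^2 / 2 - (1 + x) * (1 - x^2)^2 * (9 * x^2 - 2 * x - 1) := by
  obtain ⟨u, hu, hu0⟩ : ∃ u, u = x - (-1:ℝ) ∧ 0 ≤ u := ⟨_, rfl, by linarith⟩
  obtain ⟨v, hv, hv0⟩ : ∃ v, v = (-1/2:ℝ) - x ∧ 0 ≤ v := ⟨_, rfl, by linarith⟩
  have : 1 - (2 * ((1 + x) * (1 - x^2)^2) - 1)^2 / 2 - (1 + x) * (1 - x^2)^2 * (9 * x^2 - 2 * x - 1) = (512:ℝ) * u^0 * v^10 + (5120:ℝ) * u^1 * v^9 + (23040:ℝ) * u^2 * v^8 + (57344:ℝ) * u^3 * v^7 + (86016:ℝ) * u^4 * v^6 + (82048:ℝ) * u^5 * v^5 + (52224:ℝ) * u^6 * v^4 + (23736:ℝ) * u^7 * v^3 + (8296:ℝ) * u^8 * v^2 + (2120:ℝ) * u^9 * v^1 + (278:ℝ) * u^10 * v^0 := by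
    rw [hu, hv]; ring
  rw [this]; positivity

theorem gA_1 (x : ℝ) (h1 : (-1/2:ℝ) ≤ x) (h2 : x ≤ (0:ℝ)) : 0 ≤ 1 - (2 * ((1 + x) * (1 - x^2)^2) - 1)^2 / 2 - (1 + x) * (1 - x^2)^2 * (9 * x^2 - 2 * x - 1) := by
  obtain ⟨u, hu, hu0⟩ : ∃ u, u = x - (-1/2:ℝ) ∧ 0 ≤ u := ⟨_, rfl, by linarith⟩
  obtain ⟨v, hv, hv0⟩ : ∃ v, v = (0:ℝ) - x ∧ 0 ≤ v := ⟨_, rfl, by linarith⟩
  have : 1 - (2 * ((1 + x) * (1 - x^2)^2) - 1)^2 / 2 - (1 + x) * (1 - x^2)^2 * (9 * x^2 - 2 * x - 1) = (278:ℝ) * u^0 * v^10 + (3440:ℝ) * u^1 * v^9 + (20176:ℝ) * u^2 * v^8 + (70600:ℝ) * u^3 * v^7 + (158512:ℝ) * u^4 * v^6 + (235296:ℝ) * u^5 * v^5 + (232896:ℝ) * u^6 * v^4 + (151936:ℝ) * u^7 * v^3 + (62720:ℝ) * u^8 * v^2 + (14848:ℝ) * u^9 * v^1 + (1536:ℝ) * u^10 * v^0 := by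
    rw [hu, hv]; ring
  rw [this]; positivity

theorem gA_2 (x : ℝ) (h1 : (0:ℝ) ≤ x) (h2 : x ≤ (1/2:ℝ)) : 0 ≤ 1 - (2 * ((1 + x) * (1 - x^2)^2) - 1)^2 / 2 - (1 + x) * (1 - x^2)^2 * (9 * x^2 - 2 * x - 1) := by
  obtain ⟨u, hu, hu0⟩ : ∃ u, u = x - (0:ℝ) ∧ 0 ≤ u := ⟨_, rfl, by linarith⟩
  obtain ⟨v, hv, hv0⟩ : ∃ v, v = (1/2:ℝ) - x ∧ 0 ≤ v := ⟨_, rfl, by linarith⟩
  have : 1 - (2 * ((1 + x) * (1 - x^2)^2) - 1)^2 / 2 - (1 + x) * (1 - x^2)^2 * (9 * x^2 - 2 * x - 1) = (1536:ℝ) * u^0 * v^10 + (15872:ℝ) * u^1 * v^9 + (71936:ℝ) * u^2 * v^8 + (188032:ℝ) * u^3 * v^7 + (313536:ℝ) * u^4 * v^6 + (348128:ℝ) * u^5 * v^5 + (260336:ℝ) * u^6 * v^4 + (129208:ℝ) * u^7 * v^3 + (40608:ℝ) * u^8 * v^2 + (7280:ℝ) * u^9 * v^1 + (566:ℝ) * u^10 * v^0 := by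
    rw [hu, hv]; ring
  rw [this]; positivity

theorem gA_3 (x : ℝ) (h1 : (1/2:ℝ) ≤ x) (h2 : x ≤ (1:ℝ)) : 0 ≤ 1 - (2 * ((1 + x) * (1 - x^2)^2) - 1)^2 / 2 - (1 + x) * (1 - x^2)^2 * (9 * x^2 - 2 * x - 1) := by
  obtain ⟨u, hu, hu0⟩ : ∃ u, u = x - (1/2:ℝ) ∧ 0 ≤ u := ⟨_, rfl, by linarith⟩
  obtain ⟨v, hv, hv0⟩ : ∃ v, v = (1:ℝ) - x ∧ 0 ≤ v := ⟨_, rfl, by linarith⟩
  have : 1 - (2 * ((1 + x) * (1 - x^2)^2) - 1)^2 / 2 - (1 + x) * (1 - x^2)^2 * (9 * x^2 - 2 * x - 1) = (566:ℝ) * u^0 * v^10 + (4040:ℝ) * u^1 * v^9 + (11448:ℝ) * u^2 * v^8 + (15560:ℝ) * u^3 * v^7 + (9120:ℝ) * u^4 * v^6 + (2560:ℝ) * u^5 * v^5 + (9216:ℝ) * u^6 * v^4 + (18432:ℝ) * u^7 * v^3 + (14848:ℝ) * u^8 * v^2 + (5120:ℝ) * u^9 * v^1 + (512:ℝ) * u^10 * v^0 := by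
    rw [hu, hv]; ring
  rw [this]; positivity

theorem gA (x : ℝ) (h1 : -1 ≤ x) (h2 : x ≤ 1) : 0 ≤ 1 - (2 * ((1 + x) * (1 - x^2)^2) - 1)^2 / 2 - (1 + x) * (1 - x^2)^2 * (9 * x^2 - 2 * x - 1) := by
  by_cases c0 : x ≤ (-1/2:ℝ)
  · exact gA_0 x (by linarith) c0
  by_cases c1 : x ≤ (0:ℝ)
  · exact gA_1 x (by linarith) c1
  by_cases c2 : x ≤ (1/2:ℝ)
  · exact gA_2 x (by linarith) c2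
  exact gA_3 x (by linarith) (by linarith)

theorem gB_0 (x : ℝ) (h1 : (-1:ℝ) ≤ x) (h2 : x ≤ (-1/2:ℝ)) : 0 ≤ 3072 / 2401 - (1 + x) * (1 - x^2) * (7 * x^2 - 2 * x - 1) := by
  obtain ⟨u, hu, hu0⟩ : ∃ u, u = x - (-1:ℝ) ∧ 0 ≤ u := ⟨_, rfl, by linarith⟩
  obtain ⟨v, hv, hv0⟩ : ∃ v, v = (-1/2:ℝ) - x ∧ 0 ≤ v := ⟨_, rfl, by linarith⟩
  have : 3072 / 2401 - (1 + x) * (1 - x^2) * (7 * x^2 - 2 * x - 1) = (98304/2401:ℝ) * u^0 * v^5 + (491520/2401:ℝ) * u^1 * v^4 + (675712/2401:ℝ) * u^2 * v^3 + (445216/2401:ℝ) * u^3 * v^2 + (193796/2401:ℝ) * u^4 * v^1 + (47883/2401:ℝ) * u^5 * v^0 := by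
    rw [hu, hv]; ring
  rw [this]; positivity

theorem gB_1 (x : ℝ) (h1 : (-1/2:ℝ) ≤ x) (h2 : x ≤ (0:ℝ)) : 0 ≤ 3072 / 2401 - (1 + x) * (1 - x^2) * (7 * x^2 - 2 * x - 1) := by
  obtain ⟨u, hu, hu0⟩ : ∃ u, u = x - (-1/2:ℝ) ∧ 0 ≤ u := ⟨_, rfl, by linarith⟩
  obtain ⟨v, hv, hv0⟩ : ∃ v, v = (0:ℝ) - x ∧ 0 ≤ v := ⟨_, rfl, by linarith⟩
  have : 3072 / 2401 - (1 + x) * (1 - x^2) * (7 * x^2 - 2 * x - 1) = (47883/2401:ℝ) * u^0 * v^5 + (285034/2401:ℝ) * u^1 * v^4 + (810168/2401:ℝ) * u^2 * v^3 + (1175120/2401:ℝ) * u^3 * v^2 + (760432/2401:ℝ) * u^4 * v^1 + (175136/2401:ℝ) * u^5 * v^0 := by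
    rw [hu, hv]; ring
  rw [this]; positivity

theorem gB_2 (x : ℝ) (h1 : (0:ℝ) ≤ x) (h2 : x ≤ (1/2:ℝ)) : 0 ≤ 3072 / 2401 - (1 + x) * (1 - x^2) * (7 * x^2 - 2 * x - 1) := by
  obtain ⟨u, hu, hu0⟩ : ∃ u, u = x - (0:ℝ) ∧ 0 ≤ u := ⟨_, rfl, by linarith⟩
  obtain ⟨v, hv, hv0⟩ : ∃ v, v = (1/2:ℝ) - x ∧ 0 ≤ v := ⟨_, rfl, by linarith⟩
  have : 3072 / 2401 - (1 + x) * (1 - x^2) * (7 * x^2 - 2 * x - 1) = (175136/2401:ℝ) * u^0 * v^5 + (990928/2401:ℝ) * u^1 * v^4 + (2097104/2401:ℝ) * u^2 * v^3 + (2001064/2401:ℝ) * u^3 * v^2 + (822858/2401:ℝ) * u^4 * v^1 + (119913/2401:ℝ) * u^5 * v^0 := by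
    rw [hu, hv]; ring
  rw [this]; positivity

theorem gB_3 (x : ℝ) (h1 : (1/2:ℝ) ≤ x) (h2 : x ≤ (3/4:ℝ)) : 0 ≤ 3072 / 2401 - (1 + x) * (1 - x^2) * (7 * x^2 - 2 * x - 1) := by
  obtain ⟨u, hu, hu0⟩ : ∃ u, u = x - (1/2:ℝ) ∧ 0 ≤ u := ⟨_, rfl, by linarith⟩
  obtain ⟨v, hv, hv0⟩ : ∃ v, v = (3/4:ℝ) - x ∧ 0 ≤ v := ⟨_, rfl, by linarith⟩
  have : 3072 / 2401 - (1 + x) * (1 - x^2) * (7 * x^2 - 2 * x - 1) = (3837216/2401:ℝ) * u^0 * v^5 + (15613392/2401:ℝ) * u^1 * v^4 + (23351504/2401:ℝ) * u^2 * v^3 + (15418600/2401:ℝ) * u^3 * v^2 + (4266266/2401:ℝ) * u^4 * v^1 + (439801/2401:ℝ) * u^5 * v^0 := by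
    rw [hu, hv]; ring
  rw [this]; positivity

theorem gB_4 (x : ℝ) (h1 : (3/4:ℝ) ≤ x) (h2 : x ≤ (7/8:ℝ)) : 0 ≤ 3072 / 2401 - (1 + x) * (1 - x^2) * (7 * x^2 - 2 * x - 1) := by
  obtain ⟨u, hu, hu0⟩ : ∃ u, u = x - (3/4:ℝ) ∧ 0 ≤ u := ⟨_, rfl, by linarith⟩
  obtain ⟨v, hv, hv0⟩ : ∃ v, v = (7/8:ℝ) - x ∧ 0 ≤ v := ⟨_, rfl, by linarith⟩
  have : 3072 / 2401 - (1 + x) * (1 - x^2) * (7 * x^2 - 2 * x - 1) = (14073632/2401:ℝ) * u^0 * v^5 + (37291984/2401:ℝ) * u^1 * v^4 + (30443984/2401:ℝ) * u^2 * v^3 + (15135208/2401:ℝ) * u^3 * v^2 + (18338490/2401:ℝ) * u^4 * v^1 + (10445721/2401:ℝ) * u^5 * v^0 := by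
    rw [hu, hv]; ring
  rw [this]; positivity

theorem gB_5 (x : ℝ) (h1 : (7/8:ℝ) ≤ x) (h2 : x ≤ (1:ℝ)) : 0 ≤ 3072 / 2401 - (1 + x) * (1 - x^2) * (7 * x^2 - 2 * x - 1) := by
  obtain ⟨u, hu, hu0⟩ : ∃ u, u = x - (7/8:ℝ) ∧ 0 ≤ u := ⟨_, rfl, by linarith⟩
  obtain ⟨v, hv, hv0⟩ : ∃ v, v = (1:ℝ) - x ∧ 0 ≤ v := ⟨_, rfl, by linarith⟩
  have : 3072 / 2401 - (1 + x) * (1 - x^2) * (7 * x^2 - 2 * x - 1) = (10445721/2401:ℝ) * u^0 * v^5 + (86118720/2401:ℝ) * u^1 * v^4 + (286256128/2401:ℝ) * u^2 * v^3 + (455901184/2401:ℝ) * u^3 * v^2 + (345964544/2401:ℝ) * u^4 * v^1 + (100663296/2401:ℝ) * u^5 * v^0 := by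
    rw [hu, hv]; ring
  rw [this]; positivity

theorem gB (x : ℝ) (h1 : -1 ≤ x) (h2 : x ≤ 1) : 0 ≤ 3072 / 2401 - (1 + x) * (1 - x^2) * (7 * x^2 - 2 * x - 1) := by
  by_cases c0 : x ≤ (-1/2:ℝ)
  · exact gB_0 x (by linarith) c0
  by_cases c1 : x ≤ (0:ℝ)
  · exact gB_1 x (by linarith) c1
  by_cases c2 : x ≤ (1/2:ℝ)
  · exact gB_2 x (by linarith) c2
  by_cases c3 : x ≤ (3/4:ℝ)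
  · exact gB_3 x (by linarith) c3
  by_cases c4 : x ≤ (7/8:ℝ)
  · exact gB_4 x (by linarith) c4
  exact gB_5 x (by linarith) (by linarith)

end Pool.Agent.H.MP_d240f8_an
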