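import Mathlib

namespace Pool.Agent.H.MP_d240f8_an
open Finset

theorem one_add_ge (y : ℝ) (hy : -1/2 ≤ y) : Real.exp (y - 2*y^2) ≤ 1 + y := by
  have h1 : 1 - (y - 2*y^2) ≤ Real.exp (-(y - 2*y^2)) := by
    have := Real.add_one_le_exp (-(y - 2*y^2)); linarith
  have h2 : 0 < 1 - (y - 2*y^2) := by nlinarith [sq_nonneg (y - 1/4)]
  have h3 : Real.exp (y - 2*y^2) * Real.exp (-(y - 2*y^2)) = 1 := by
    rw [← Real.exp_add]; simp
  have h4 := Real.exp_pos (y - 2*y^2)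
  have h5 : Real.exp (y - 2*y^2) * (1 - (y - 2*y^2)) ≤ 1 := by
    exact (mul_le_mul_of_nonneg_left h1 h4.le).trans h3.le
  have h6 : 1 ≤ (1+y) * (1 - (y - 2*y^2)) := by
    nlinarith [mul_nonneg (sq_nonneg y) (by linarith : 0 ≤ 1 + 2*y)]
  exact le_of_mul_le_mul_right (h5.trans h6) h2

theorem prod_ge {ι : Type*} [Fintype ι] (y : ι → ℝ) (hy : ∀ i, -1/2 ≤ y i)
    (h0 : ∑ i, y i = 0) : 1 - 2 * ∑ i, y i^2 ≤ ∏ i, (1 + y i) := by
  have h1 : ∏ i, Real.exp (y i - 2 * y i^2) ≤ ∏ i, (1 + y i) :=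
    Finset.prod_le_prod (fun i _ => (Real.exp_pos _).le) (fun i _ => one_add_ge _ (hy i))
  rw [← Real.exp_sum, Finset.sum_sub_distrib, h0, ← Finset.mul_sum] at h1
  have := Real.add_one_le_exp (0 - 2 * ∑ i, y i^2)
  linarith

theorem id1 (a w h d e : ℝ) (hd : d ≠ 0) (he : e ≠ 0) (h1 : d = 1 + h * a)
    (h2 : e = 1 + h * (a + w)) :
    (a + w) / e = a / d + 1 / d^2 * w - h * (w^2 / (d^2 * e)) := by
  field_simp
  subst h1 h2
  ring

theorem id2 (a w h d e : ℝ) (hd : d ≠ 0) (he : e ≠ 0) (h1 : d = 1 + h * a)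
    (h2 : e = 1 + h * (a + w)) :
    ((a + w) / e)^2 = (a / d)^2 + 2 * a / d^3 * w +
      w^2 / (d^2 * e) * (1 / e - 2 * (h * a / d)) := by
  field_simp
  subst h1 h2
  ring

theorem id3 (a h d : ℝ) (hd : d ≠ 0) (h1 : d = 1 + h * a) :
    -(h * (a / d)) = -(h * a) + (h^2 * a^2) / d := by
  field_simp
  subst h1
  ring

theorem id4 (a w h d : ℝ) (hd : d ≠ 0) (h1 : d = 1 + h * a) :
    1 + h * (a + w) = d * (1 + h / d * w) := by
  field_simp
  subst h1
  ring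

noncomputable def T {ι : Type*} [Fintype ι] (h : ℝ) (u : ι → ℝ) : ℝ :=
  ∑ i, (u i / (1 + h * u i))^2 - (∑ i, u i / (1 + h * u i))^2

theorem core {ι : Type*} [Fintype ι] (a w : ι → ℝ) (h : ℝ)
    (hZ : ∀ g : ℝ → ℝ, ∑ i, g (a i) * w i = 0) (ha0 : ∑ i, a i = 0)
    (ha : ∀ i, |a i| ≤ 7/6) (h0 : 0 ≤ h) (h1 : h ≤ 1/12)
    (hs : h^2 * ∑ i, a i^2 ≤ 1/20) (hW : ∑ i, w i^2 ≤ 9/25) (hT : 0 ≤ T h a) :
    (∀ i, 0 < 1 + h * (a i + w i)) ∧
    (∏ i, (1 + h * a i)) * (T h a + (∑ i, w i^2) / 5) ≤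
      (∏ i, (1 + h * (a i + w i))) * T h (fun i => a i + w i) := by
  have hw : ∀ i, |w i| ≤ 3/5 := by
    intro i
    have : w i^2 ≤ ∑ i, w i^2 :=
      Finset.single_le_sum (f := fun i => w i^2) (fun i _ => sq_nonneg _) (Finset.mem_univ i)
    exact abs_le_of_sq_le_sq' (by linarith) (by norm_num) |> abs_le.mpr
  have hha : ∀ i, |h * a i| ≤ 1/10 := by
    intro i
    rw [abs_mul, abs_of_nonneg h0]
    nlinarith [ha i, abs_nonneg (a i)]
  have hhw : ∀ i, |h * w i| ≤ 1/20 := by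
    intro i
    rw [abs_mul, abs_of_nonneg h0]
    nlinarith [hw i, abs_nonneg (w i)]
  have hd1 : ∀ i, 9/10 ≤ 1 + h * a i := fun i => by linarith [(abs_le.mp (hha i)).1]
  have hd2 : ∀ i, 1 + h * a i ≤ 11/10 := fun i => by linarith [(abs_le.mp (hha i)).2]
  have he1 : ∀ i, 17/20 ≤ 1 + h * (a i + w i) := fun i => by
    linarith [(abs_le.mp (hha i)).1, (abs_le.mp (hhw i)).1]
  have he2 : ∀ i, 1 + h * (a i + w i) ≤ 23/20 := fun i => by
    linarith [(abs_le.mp (hha i)).2, (abs_le.mp (hhw i)).2]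
  refine ⟨fun i => by linarith [he1 i], ?_⟩
  obtain ⟨z, hz⟩ : ∃ z : ι → ℝ, ∀ i, z i = w i^2 / ((1 + h * a i)^2 * (1 + h * (a i + w i))) :=
    ⟨_, fun _ => rfl⟩
  have hden1 : ∀ i, 2/3 ≤ (1 + h * a i)^2 * (1 + h * (a i + w i)) := by
    intro i
    have : 81/100 ≤ (1 + h * a i)^2 := by nlinarith [hd1 i]
    nlinarith [he1 i]
  have hden2 : ∀ i, (1 + h * a i)^2 * (1 + h * (a i + w i)) ≤ 10/7 := by
    intro i
    have : (1 + h * a i)^2 ≤ 121/100 := by nlinarith [hd1 i, hd2 i]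
    nlinarith [he1 i, he2 i, sq_nonneg (1 + h * a i)]
  have hz1 : ∀ i, z i ≤ 3/2 * w i^2 := by
    intro i
    rw [hz, div_le_iff₀ (by linarith [hden1 i])]
    nlinarith [hden1 i, sq_nonneg (w i)]
  have hz2 : ∀ i, 7/10 * w i^2 ≤ z i := by
    intro i
    rw [hz, le_div_iff₀ (by linarith [hden1 i])]
    nlinarith [hden2 i, sq_nonneg (w i)]
  have hz0 : ∀ i, 0 ≤ z i := fun i => by nlinarith [hz2 i, sq_nonneg (w i)]
  have e1 : ∀ i, (a i + w i) / (1 + h * (a i + w i)) =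
      a i / (1 + h * a i) + 1 / (1 + h * a i)^2 * w i - h * z i := by
    intro i
    have p1 : 1 + h * a i ≠ 0 := by linarith [hd1 i]
    have p2 : 1 + h * (a i + w i) ≠ 0 := by linarith [he1 i]
    rw [hz]; exact id1 _ _ _ _ _ p1 p2 rfl rfl
  have e2 : ∀ i, (a i / (1 + h * a i))^2 + 2 * a i / (1 + h * a i)^3 * w i + 16/25 * z i ≤
      ((a i + w i) / (1 + h * (a i + w i)))^2 := by
    intro i
    have p1 : 1 + h * a i ≠ 0 := by linarith [hd1 i]
    have p2 : 1 + h * (a i + w i) ≠ 0 := by linarith [he1 i]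
    have q : ((a i + w i) / (1 + h * (a i + w i)))^2 =
        (a i / (1 + h * a i))^2 + 2 * a i / (1 + h * a i)^3 * w i +
          z i * (1 / (1 + h * (a i + w i)) - 2 * (h * a i / (1 + h * a i))) := by
      rw [hz]; exact id2 _ _ _ _ _ p1 p2 rfl rfl
    have q1 : 20/23 ≤ 1 / (1 + h * (a i + w i)) := by
      rw [le_div_iff₀ (by linarith [he1 i])]; linarith [he2 i]
    have q2 : h * a i / (1 + h * a i) ≤ 1/9 := by
      rw [div_le_iff₀ (by linarith [hd1 i])]; linarith [(abs_le.mp (hha i)).2, hd1 i]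
    rw [q]
    nlinarith [hz0 i]
  have sV : ∑ i, (a i + w i) / (1 + h * (a i + w i)) =
      ∑ i, a i / (1 + h * a i) - h * ∑ i, z i := by
    rw [Finset.sum_congr rfl (fun i _ => e1 i), Finset.sum_sub_distrib, Finset.sum_add_distrib,
      hZ (fun t => 1 / (1 + h * t)^2), ← Finset.mul_sum, add_zero]
  have sS : ∑ i, (a i / (1 + h * a i))^2 + 16/25 * ∑ i, z i ≤
      ∑ i, ((a i + w i) / (1 + h * (a i + w i)))^2 := by
    have := Finset.sum_le_sum (s := Finset.univ) (fun i _ => e2 i)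
    rw [Finset.sum_add_distrib, Finset.sum_add_distrib,
      hZ (fun t => 2 * t / (1 + h * t)^3), ← Finset.mul_sum, add_zero] at this
    exact this
  have hN : -(h * ∑ i, a i / (1 + h * a i)) ≤ 1/18 := by
    have q : ∀ i, -(h * (a i / (1 + h * a i))) ≤ -(h * a i) + 10/9 * (h^2 * a i^2) := by
      intro i
      have p1 : 0 < 1 + h * a i := by linarith [hd1 i]
      have q0 : -(h * (a i / (1 + h * a i))) = -(h * a i) + (h^2 * a i^2) / (1 + h * a i) :=
        id3 _ _ _ p1.ne' rfl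
      have q1 : (h^2 * a i^2) / (1 + h * a i) ≤ 10/9 * (h^2 * a i^2) := by
        rw [div_le_iff₀ p1]
        nlinarith [hd1 i, mul_nonneg (sq_nonneg h) (sq_nonneg (a i))]
      linarith
    have := Finset.sum_le_sum (s := Finset.univ) (fun i _ => q i)
    rw [Finset.sum_neg_distrib, ← Finset.mul_sum, Finset.sum_add_distrib, Finset.sum_neg_distrib,
      ← Finset.mul_sum, ← Finset.mul_sum, ← Finset.mul_sum, ha0] at this
    linarith
  have sZ1 : ∑ i, z i ≤ 3/2 * ∑ i, w i^2 := by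
    rw [Finset.mul_sum]; exact Finset.sum_le_sum (fun i _ => hz1 i)
  have sZ2 : 7/10 * ∑ i, w i^2 ≤ ∑ i, z i := by
    rw [Finset.mul_sum]; exact Finset.sum_le_sum (fun i _ => hz2 i)
  have sZ0 : 0 ≤ ∑ i, z i := Finset.sum_nonneg (fun i _ => hz0 i)
  have sW0 : 0 ≤ ∑ i, w i^2 := Finset.sum_nonneg (fun i _ => sq_nonneg _)
  have hh2 : h^2 ≤ 1/144 := by nlinarith
  have hTT : T h a + 9/25 * ∑ i, w i^2 ≤ T h (fun i => a i + w i) := by
    unfold T
    rw [sV]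
    have r1 : h^2 * ∑ i, z i ≤ 1/250 := by nlinarith [sq_nonneg h]
    have r2 := mul_le_mul_of_nonneg_right hN sZ0
    have r3 := mul_le_mul_of_nonneg_right r1 sZ0
    nlinarith
  have hP : (∏ i, (1 + h * (a i + w i))) =
      (∏ i, (1 + h * a i)) * ∏ i, (1 + h / (1 + h * a i) * w i) := by
    rw [← Finset.prod_mul_distrib]
    refine Finset.prod_congr rfl (fun i _ => ?_)
    have p1 : 1 + h * a i ≠ 0 := by linarith [hd1 i]
    exact id4 _ _ _ _ p1 rfl
  have hy2 : ∀ i, (h / (1 + h * a i) * w i)^2 ≤ 100/81 * (h^2 * w i^2) := by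
    intro i
    have p1 : 0 < 1 + h * a i := by linarith [hd1 i]
    have : (h / (1 + h * a i) * w i)^2 = (h^2 * w i^2) / (1 + h * a i)^2 := by
      rw [mul_pow, div_pow]; ring
    rw [this, div_le_iff₀ (by positivity)]
    have : 81/100 ≤ (1 + h * a i)^2 := by nlinarith [hd1 i]
    nlinarith [mul_nonneg (sq_nonneg h) (sq_nonneg (w i))]
  have hP2 := prod_ge (fun i => h / (1 + h * a i) * w i) (by
    intro i
    have := hy2 i
    have r : h^2 * w i^2 ≤ 1/400 := by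
      have := abs_le.mp (hhw i)
      nlinarith
    nlinarith) (hZ (fun t => h / (1 + h * t)))
  have hP3 : ∑ i, (h / (1 + h * a i) * w i)^2 ≤ 100/81 * (h^2 * ∑ i, w i^2) := by
    rw [Finset.mul_sum, Finset.mul_sum]; exact Finset.sum_le_sum (fun i _ => hy2 i)
  have hT2 : h^2 * T h a ≤ 5/81 := by
    have q : ∀ i, (a i / (1 + h * a i))^2 ≤ 100/81 * a i^2 := by
      intro i
      have p1 : 0 < 1 + h * a i := by linarith [hd1 i]
      rw [div_pow, div_le_iff₀ (by positivity)]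
      have : 81/100 ≤ (1 + h * a i)^2 := by nlinarith [hd1 i]
      nlinarith [sq_nonneg (a i)]
    have := Finset.sum_le_sum (s := Finset.univ) (fun i _ => q i)
    rw [← Finset.mul_sum] at this
    have r : T h a ≤ 100/81 * ∑ i, a i^2 := by
      unfold T; nlinarith [sq_nonneg (∑ i, a i / (1 + h * a i))]
    nlinarith [sq_nonneg h]
  have hD : 0 ≤ ∏ i, (1 + h * a i) := Finset.prod_nonneg (fun i _ => by linarith [hd1 i])
  rw [hP, mul_assoc]
  refine mul_le_mul_of_nonneg_left ?_ hD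
  have k1 : 1 - 200/81 * (h^2 * ∑ i, w i^2) ≤ ∏ i, (1 + h / (1 + h * a i) * w i) := by linarith
  have k2 : h^2 * ∑ i, w i^2 ≤ 1/400 := by nlinarith [sq_nonneg h]
  have k3 : (1 - 200/81 * (h^2 * ∑ i, w i^2)) * (T h a + 9/25 * ∑ i, w i^2) ≤
      (∏ i, (1 + h / (1 + h * a i) * w i)) * T h (fun i => a i + w i) :=
    mul_le_mul k1 hTT (by linarith) (by linarith)
  have k4 := mul_le_mul_of_nonneg_right hT2 sW0
  have k5 := mul_le_mul_of_nonneg_right k2 sW0
  nlinarith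

end Pool.Agent.H.MP_d240f8_an
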