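import Mathlib
import Pool.Agent.H.MP_d240f8_an.A

namespace Pool.Agent.H.MP_d240f8_an

theorem amgm (d : ℝ) (hd : d ≤ 1) (k : ℕ) : (1 - d)^k * (1 + k * d) ≤ 1 := by
  induction k with
  | zero => simp
  | succ k ih =>
    have h0 : 0 ≤ (1 - d)^k := pow_nonneg (by linarith) k
    have h1 : (1 - d) * (1 + ((k:ℝ) + 1) * d) ≤ 1 + k * d := by
      nlinarith [mul_nonneg (by positivity : (0:ℝ) ≤ (k:ℝ) + 1) (sq_nonneg d)]
    push_cast
    calc (1 - d)^(k+1) * (1 + ((k:ℝ) + 1) * d) = (1 - d)^k * ((1 - d) * (1 + ((k:ℝ) + 1) * d)) := by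
          ring
      _ ≤ (1 - d)^k * (1 + k * d) := mul_le_mul_of_nonneg_left h1 h0
      _ ≤ 1 := ih

theorem amgm2 (y : ℝ) (h0 : 0 ≤ y) (h1 : y ≤ 1) (j : ℕ) :
    (1 - y)^j * (1 + j * y + j * (j + 1) * y^2 / 2) ≤ 1 := by
  induction j with
  | zero => simp
  | succ k ih =>
    have p0 : 0 ≤ (1 - y)^k := pow_nonneg (by linarith) k
    have p1 : (1 - y) * (1 + ((k:ℝ) + 1) * y + ((k:ℝ) + 1) * ((k:ℝ) + 1 + 1) * y^2 / 2) ≤
        1 + k * y + k * (k + 1) * y^2 / 2 := by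
      have : 0 ≤ ((k:ℝ) + 1) * ((k:ℝ) + 1 + 1) * y^3 := by positivity
      nlinarith
    push_cast
    calc (1 - y)^(k+1) * (1 + ((k:ℝ) + 1) * y + ((k:ℝ) + 1) * ((k:ℝ) + 1 + 1) * y^2 / 2)
        = (1 - y)^k * ((1 - y) * (1 + ((k:ℝ) + 1) * y + ((k:ℝ) + 1) * ((k:ℝ) + 1 + 1) * y^2 / 2)) := by
          ring
      _ ≤ (1 - y)^k * (1 + k * y + k * (k + 1) * y^2 / 2) := mul_le_mul_of_nonneg_left p1 p0
      _ ≤ 1 := ih

noncomputable def F (k : ℕ) (x : ℝ) : ℝ :=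
  (1 + x) * (1 - x^2)^k * (1 + 2 * x - (2 * k + 5) * x^2)

theorem F0 (k : ℕ) (N : ℝ) (hN : N = 2 * k + 5) :
    F k (1 / N) = (1 + 1 / N)^2 * (1 - 1 / N^2)^k := by
  have h : N ≠ 0 := by rw [hN]; positivity
  unfold F
  rw [← hN, one_div_pow]
  have : 1 + 2 * (1 / N) - N * (1 / N^2) = 1 + 1 / N := by field_simp; ring
  rw [this]; ring

theorem up (k : ℕ) (N : ℝ) (hN : N = 2 * k + 5) (x : ℝ) (hx : x^2 ≤ 1) :
    (1 - x^2)^k * (N^2 - 1 + k * (N^2 * x^2 - 1)) ≤ (1 - 1 / N^2)^k * (N^2 - 1) := by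
  have hk : (0:ℝ) ≤ k := by positivity
  have h5 : 5 ≤ N := by linarith
  have h : N ≠ 0 := by linarith
  have h2 : 0 < N^2 - 1 := by nlinarith
  have hd : (N^2 * x^2 - 1) / (N^2 - 1) ≤ 1 := by
    rw [div_le_one h2]; nlinarith [sq_nonneg N]
  have h3 := amgm _ hd k
  have e : 1 - x^2 = (1 - 1 / N^2) * (1 - (N^2 * x^2 - 1) / (N^2 - 1)) := by
    field_simp; ring
  have e2 : N^2 - 1 + k * (N^2 * x^2 - 1) = (N^2 - 1) * (1 + k * ((N^2 * x^2 - 1) / (N^2 - 1))) := by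
    field_simp
  have c0 : 0 ≤ (1 - 1 / N^2)^k * (N^2 - 1) := by
    have : 1 / N^2 ≤ 1 := by rw [div_le_one (by positivity)]; linarith
    exact mul_nonneg (pow_nonneg (by linarith) k) h2.le
  rw [e, e2, mul_pow]
  have := mul_le_mul_of_nonneg_left h3 c0
  linarith

theorem ratio (k : ℕ) (N : ℝ) (hN : N = 2 * k + 5) (x c : ℝ) (h1 : -1 ≤ x) (h2 : x ≤ 1)
    (hc : 0 ≤ c)
    (hp : (N + N * x) * (N + 2 * (N * x) - (N * x)^2) * (N^2 - 1) ≤
      (N + 1)^2 * (N^2 - 1 + k * (N^2 * x^2 - 1)) * c) :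
    F k x ≤ F k (1 / N) * c := by
  have hk : (0:ℝ) ≤ k := by positivity
  have h5 : 5 ≤ N := by linarith
  have h : N ≠ 0 := by linarith
  have hx : x^2 ≤ 1 := by nlinarith
  have hD : 0 < N^2 - 1 + k * (N^2 * x^2 - 1) := by
    have : 0 ≤ (k:ℝ) * (N^2 * x^2) := by positivity
    nlinarith
  have c0 : 0 ≤ (1 - 1 / N^2)^k := by
    have : 1 / N^2 ≤ 1 := by rw [div_le_one (by positivity)]; nlinarith
    exact pow_nonneg (by linarith) k
  rw [F0 k N hN]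
  unfold F
  rw [← hN]
  have y0 : 0 ≤ (1 - x^2)^k := pow_nonneg (by linarith) k
  by_cases hB : 1 + 2 * x - N * x^2 ≤ 0
  · have a1 : (1 + x) * (1 - x^2)^k * (1 + 2 * x - N * x^2) ≤ 0 :=
      mul_nonpos_of_nonneg_of_nonpos (mul_nonneg (by linarith) y0) hB
    have a2 : 0 ≤ (1 + 1 / N)^2 * (1 - 1 / N^2)^k * c := by positivity
    linarith
  · have hB' : 0 ≤ (1 + x) * (1 + 2 * x - N * x^2) := mul_nonneg (by linarith) (by linarith)
    have u := mul_le_mul_of_nonneg_left (up k N hN x hx) hB'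
    have hp' : (1 + x) * (1 + 2 * x - N * x^2) * (N^2 - 1) ≤
        (1 + 1 / N)^2 * (N^2 - 1 + k * (N^2 * x^2 - 1)) * c := by
      have e1 : (1 + 1 / N)^2 = (N + 1)^2 / N^2 := by field_simp
      have hN2 : 0 < N^2 := by positivity
      rw [e1, div_mul_eq_mul_div, div_mul_eq_mul_div, le_div_iff₀ hN2]
      calc _ = (N + N * x) * (N + 2 * (N * x) - (N * x)^2) * (N^2 - 1) := by ring
        _ ≤ _ := hp
    have v := mul_le_mul_of_nonneg_left hp' c0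
    refine le_of_mul_le_mul_right ?_ hD
    linarith

theorem ident (N s : ℝ) : (N + 1)^2 * (N^2 - 1 + (N - 5) / 2 * (s^2 - 1)) -
    (N + s) * (N + 2 * s - s^2) * (N^2 - 1) =
    (N + 1) * ((s - 1) * ((N + 1) * (N - 5) * (s + 1) / 2 - (N - 1) * (N * (2 - s) + 1 + s - s^2))) := by
  ring

theorem H_neg (N s : ℝ) (hN : 7 ≤ N) (h1 : -N ≤ s) (h2 : s ≤ 1) :
    (N + 1) * (N - 5) * (s + 1) / 2 - (N - 1) * (N * (2 - s) + 1 + s - s^2) ≤ 0 := by
  have a1 : 0 ≤ (N - 1) * ((s + N) * (1 - s)) :=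
    mul_nonneg (by linarith) (mul_nonneg (by linarith) (by linarith))
  have a2 : 0 ≤ (N - 5) * (N + 1) * (1 - s) :=
    mul_nonneg (mul_nonneg (by linarith) (by linarith)) (by linarith)
  nlinarith

theorem H_pos (N s : ℝ) (hN : 7 ≤ N) (h1 : N + 4 ≤ N * s) :
    0 ≤ (N + 1) * (N - 5) * (s + 1) / 2 - (N - 1) * (N * (2 - s) + 1 + s - s^2) := by
  have hs : 1 ≤ s := by nlinarith
  obtain ⟨t, rfl⟩ : ∃ t, s = 1 + t := ⟨s - 1, by ring⟩
  have ht : 4 ≤ N * t := by linarith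
  have t0 : 0 ≤ t := by linarith
  have e : (N + 1) * (N - 5) * (1 + t + 1) / 2 - (N - 1) * (N * (2 - (1 + t)) + 1 + (1 + t) - (1 + t)^2)
      = -4 * (N + 1) + (3 * N^2 - 4 * N - 7) / 2 * t + (N - 1) * t^2 := by ring
  rw [e]
  refine le_of_mul_le_mul_left (a := N^2) ?_ (by positivity)
  have b1 : 4 * (N * (3 * N^2 - 4 * N - 7) / 2) ≤ (N * t) * (N * (3 * N^2 - 4 * N - 7) / 2) :=
    mul_le_mul_of_nonneg_right ht (by nlinarith)
  have b2 : (N - 1) * 16 ≤ (N - 1) * (N * t)^2 :=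
    mul_le_mul_of_nonneg_left (by nlinarith) (by linarith)
  nlinarith

theorem F_win (k : ℕ) (hk : 1 ≤ k) (N : ℝ) (hN : N = 2 * k + 5) (h : ℝ) (h0 : 0 ≤ h)
    (h1 : h ≤ 4 / N^2) :
    0 ≤ F k (1 / N + h) ∧ F k (1 / N + h) ≤ F k (1 / N) * (1 + 16 / (N * (N^2 - 1))) := by
  have hk' : (1:ℝ) ≤ k := by exact_mod_cast hk
  have h7 : 7 ≤ N := by linarith
  have hN0 : 0 < N := by linarith
  have hN2 : 0 < N^2 - 1 := by nlinarith
  have hh : N * (N * h) ≤ 4 := by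
    rw [le_div_iff₀ (by positivity)] at h1; linarith
  have t0 : 0 ≤ N * h := by positivity
  have t1 : N * h ≤ 4 / 7 := by nlinarith
  obtain ⟨x, hx⟩ : ∃ x, x = 1 / N + h := ⟨_, rfl⟩
  have hs : N * x = 1 + N * h := by rw [hx]; field_simp
  have x0 : 0 ≤ x := by rw [hx]; positivity
  have x1 : x ≤ 1 := by nlinarith
  rw [← hx]
  constructor
  · unfold F
    rw [← hN]
    have : 0 ≤ 1 + 2 * x - N * x^2 := by nlinarith
    have : 0 ≤ (1 - x^2)^k := pow_nonneg (by nlinarith) k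
    positivity
  · refine ratio k N hN x _ (by linarith) x1 (by positivity) ?_
    have e := ident N (N * x)
    have ek : (k:ℝ) = (N - 5) / 2 := by linarith
    rw [ek, ← mul_pow]
    rw [hs] at e ⊢
    obtain ⟨t, ht⟩ : ∃ t, t = N * h := ⟨_, rfl⟩
    rw [← ht] at e hh t0 t1 ⊢
    have hD : N^2 - 1 ≤ N^2 - 1 + (N - 5) / 2 * ((1 + t)^2 - 1) := by
      have : 0 ≤ (N - 5) / 2 * ((1 + t)^2 - 1) := mul_nonneg (by linarith) (by nlinarith)
      linarith
    have a1 : -4 * (N + 1) ≤ (N + 1) * (N - 5) * (1 + t + 1) / 2 -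
        (N - 1) * (N * (2 - (1 + t)) + 1 + (1 + t) - (1 + t)^2) := by
      have : 0 ≤ (3 * N^2 - 4 * N - 7) / 2 * t := mul_nonneg (by nlinarith) t0
      have : 0 ≤ (N - 1) * t^2 := mul_nonneg (by linarith) (sq_nonneg t)
      nlinarith
    have a2 := mul_le_mul_of_nonneg_left a1 (mul_nonneg (by linarith : 0 ≤ N + 1) t0)
    have a3 : t ≤ 4 / N := by rw [le_div_iff₀ hN0]; linarith
    have a4 : (N + 1)^2 * (N^2 - 1) * (16 / (N * (N^2 - 1))) = (N + 1)^2 * (4 * (4 / N)) := by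
      field_simp; ring
    have a5 := mul_le_mul_of_nonneg_right (mul_le_mul_of_nonneg_left hD (sq_nonneg (N + 1)))
      (by positivity : 0 ≤ 16 / (N * (N^2 - 1)))
    have a6 := mul_le_mul_of_nonneg_left a3 (sq_nonneg (N + 1))
    nlinarith

theorem F0_ge (k : ℕ) (N : ℝ) (hN : N = 2 * k + 5) : 1 ≤ F k (1 / N) := by
  have hk : (0:ℝ) ≤ k := by positivity
  have h5 : 5 ≤ N := by linarith
  have hN0 : 0 < N := by linarith
  rw [F0 k N hN]
  have a : 1 / N^2 ≤ 1 := by rw [div_le_one (by positivity)]; nlinarith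
  have b := one_add_mul_le_pow (a := -(1 / N^2)) (by linarith) k
  have c : (1 + 1 / N)^2 * (1 + k * -(1 / N^2)) - 1 = ((N + 1)^2 * (N^2 - k) - N^4) / N^4 := by
    field_simp; ring
  have d : 0 ≤ ((N + 1)^2 * (N^2 - k) - N^4) / N^4 := by
    refine div_nonneg ?_ (by positivity)
    have ek : (k:ℝ) = (N - 5) / 2 := by linarith
    rw [ek]; nlinarith [pow_pos hN0 3, pow_pos hN0 2]
  have f := mul_le_mul_of_nonneg_left b (sq_nonneg (1 + 1 / N))
  rw [← sub_eq_add_neg] at f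
  linarith

theorem F_low (k : ℕ) (hk : 1 ≤ k) (N : ℝ) (hN : N = 2 * k + 5) (x : ℝ) (h1 : -1 ≤ x)
    (h2 : x ≤ 1) : -F k x ≤ F k (1 / N) := by
  rcases Nat.lt_or_ge k 2 with h | h
  · obtain rfl : k = 1 := by omega
    have := gB x h1 h2
    rw [F0 1 N hN, hN]
    unfold F
    norm_num
    linarith
  · obtain ⟨j, rfl⟩ : ∃ j, k = j + 2 := ⟨k - 2, by omega⟩
    refine le_trans ?_ (F0_ge _ N hN)
    have g := gA x h1 h2
    have y1 : x^2 ≤ 1 := by nlinarith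
    have a := amgm2 (x^2) (sq_nonneg x) y1 j
    have p0 : 0 ≤ (1 - x^2)^j := pow_nonneg (by linarith) j
    have j0 : (0:ℝ) ≤ j := by positivity
    have b : (1 + x) * (1 - x^2)^2 * ((2 * j + 9) * x^2 - 2 * x - 1) ≤
        1 + j * x^2 + j * (j + 1) * (x^2)^2 / 2 := by
      have : 0 ≤ (j:ℝ) * (x^2)^2 := by positivity
      nlinarith [sq_nonneg ((j:ℝ) * x^2 - (2 * ((1 + x) * (1 - x^2)^2) - 1))]
    have c := mul_le_mul_of_nonneg_left b p0
    unfold F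
    push_cast
    calc _ = (1 - x^2)^j * ((1 + x) * (1 - x^2)^2 * ((2 * j + 9) * x^2 - 2 * x - 1)) := by ring
      _ ≤ _ := c.trans a

theorem F_max (k : ℕ) (hk : 1 ≤ k) (N : ℝ) (hN : N = 2 * k + 5) (x : ℝ) (h1 : -1 ≤ x)
    (h2 : x ≤ 1) : ∃ h, 0 ≤ h ∧ h ≤ 4 / N^2 ∧ |F k x| ≤ F k (1 / N + h) := by
  have hk' : (1:ℝ) ≤ k := by exact_mod_cast hk
  have h7 : 7 ≤ N := by linarith
  have hN0 : 0 < N := by linarith
  by_cases hw : 1 / N ≤ x ∧ x ≤ 1 / N + 4 / N^2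
  · refine ⟨x - 1 / N, by linarith [hw.1], by linarith [hw.2], ?_⟩
    have := (F_win k hk N hN (x - 1 / N) (by linarith [hw.1]) (by linarith [hw.2])).1
    rw [add_sub_cancel] at this ⊢
    rw [abs_of_nonneg this]
  · refine ⟨0, le_rfl, by positivity, ?_⟩
    rw [add_zero, abs_le]
    refine ⟨by linarith [F_low k hk N hN x h1 h2], ?_⟩
    have := ratio k N hN x 1 h1 h2 zero_le_one (by
      have e := ident N (N * x)
      have ek : (k:ℝ) = (N - 5) / 2 := by linarith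
      rw [ek, ← mul_pow]
      have : 0 ≤ (N * x - 1) * ((N + 1) * (N - 5) * (N * x + 1) / 2 -
          (N - 1) * (N * (2 - N * x) + 1 + N * x - (N * x)^2)) := by
        rw [not_and_or] at hw
        rcases hw with hw | hw
        · have s1 : N * x ≤ 1 := by
            rw [not_le, lt_div_iff₀ hN0] at hw; linarith
          exact mul_nonneg_of_nonpos_of_nonpos (by linarith)
            (H_neg N (N * x) h7 (by nlinarith) s1)
        · have s1 : N + 4 ≤ N * (N * x) := by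
            have : 1 / N + 4 / N^2 = (N + 4) / N^2 := by field_simp
            rw [not_le, this, div_lt_iff₀ (by positivity)] at hw; linarith
          exact mul_nonneg (by nlinarith) (H_pos N (N * x) h7 s1)
      have := mul_nonneg (by linarith : 0 ≤ N + 1) this
      linarith)
    linarith

end Pool.Agent.H.MP_d240f8_an
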