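import Mathlib
import Pool.Agent.H.MP_d240f8_an.B
import Pool.Agent.H.MP_d240f8_an.C

namespace Pool.Agent.H.MP_d240f8_an
open Finset

noncomputable def G {ι : Type*} [Fintype ι] (r : ι → ℝ) (t : ℝ) : ℝ :=
  |∏ i, (t - r i)| * |(∑ i, 1 / (t - r i))^2 - ∑ i, (1 / (t - r i))^2|

noncomputable def M (k : ℕ) (N h : ℝ) : ℝ :=
  2 * (k + 2) * F k (1 / N + h) / ((1 + 1 / N) * (1 - 1 / N^2)^(k + 2))

theorem M_le (k : ℕ) (hk : 1 ≤ k) (N : ℝ) (hN : N = 2 * k + 5) (h : ℝ) (h0 : 0 ≤ h)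
    (h1 : h ≤ 4 / N^2) : M k N h ≤ N^3 / (N^2 - 1) + 16 * N^2 / (N^2 - 1)^2 := by
  have hk' : (1:ℝ) ≤ k := by exact_mod_cast hk
  have h7 : 7 ≤ N := by linarith
  have hN0 : 0 < N := by linarith
  have hN2 : 0 < N^2 - 1 := by nlinarith
  have c0 : 0 < 1 - 1 / N^2 := by
    have : 1 / N^2 < 1 := by rw [div_lt_one (by positivity)]; nlinarith
    linarith
  have w := (F_win k hk N hN h h0 h1).2
  rw [F0 k N hN] at w
  unfold M
  rw [div_le_iff₀ (by positivity)]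
  have ek : 2 * ((k:ℝ) + 2) = N - 1 := by linarith
  rw [ek]
  refine (mul_le_mul_of_nonneg_left w (by linarith)).trans (le_of_eq ?_)
  have e : 1 - 1 / N^2 = (N^2 - 1) / N^2 := by field_simp
  have e2 : (1 - 1 / N^2)^(k + 2) = (1 - 1 / N^2)^k * ((N^2 - 1) / N^2)^2 := by
    rw [pow_add, ← e]
  rw [e2]
  obtain ⟨c, hc⟩ : ∃ c, c = (1 - 1 / N^2)^k := ⟨_, rfl⟩
  obtain ⟨D, hD⟩ : ∃ D, D = N^2 - 1 := ⟨_, rfl⟩
  rw [← hc, ← hD]
  have : D ≠ 0 := by rw [hD]; exact hN2.ne'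
  field_simp
  rw [hD]; ring

theorem M_lt (k : ℕ) (hk : 1 ≤ k) (N : ℝ) (hN : N = 2 * k + 5) (h : ℝ) (h0 : 0 ≤ h)
    (h1 : h ≤ 4 / N^2) : M k N h * (N^2 - 9) < N^3 := by
  have hk' : (1:ℝ) ≤ k := by exact_mod_cast hk
  have h7 : 7 ≤ N := by linarith
  have hN2 : 0 < N^2 - 1 := by nlinarith
  have hN9 : 0 < N^2 - 9 := by nlinarith
  refine lt_of_le_of_lt (mul_le_mul_of_nonneg_right (M_le k hk N hN h h0 h1) hN9.le) ?_
  have e : (N^3 / (N^2 - 1) + 16 * N^2 / (N^2 - 1)^2) * (N^2 - 9) =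
      (N^3 * (N^2 - 1) + 16 * N^2) * (N^2 - 9) / (N^2 - 1)^2 := by
    obtain ⟨D, hD⟩ : ∃ D, D = N^2 - 1 := ⟨_, rfl⟩
    rw [← hD]
    have : D ≠ 0 := by rw [hD]; exact hN2.ne'
    field_simp
  rw [e, div_lt_iff₀ (by positivity)]
  have : 0 < N^2 * (8 * N^3 - 16 * N^2 - 8 * N + 144) := by
    have : 0 < 8 * N^3 - 16 * N^2 - 8 * N + 144 := by nlinarith [sq_nonneg N]
    positivity
  nlinarith

theorem sum_ite' {ι : Type*} [Fintype ι] [DecidableEq ι] (L : Finset ι) (g : ι → ℝ) :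
    ∑ i, g i = ∑ i ∈ L, g i + ∑ i ∈ Lᶜ, g i := (Finset.sum_add_sum_compl L g).symm

theorem M_eq {ι : Type*} [Fintype ι] [DecidableEq ι] (L : Finset ι) (k : ℕ) (hk : 1 ≤ k)
    (N : ℝ) (hN : N = 2 * k + 5) (hL : L.card = k + 3) (hR : Lᶜ.card = k + 2) (h : ℝ) (h0 : 0 ≤ h)
    (h1 : h ≤ 4 / N^2) (a : ι → ℝ) (a1 : ∀ i ∈ L, a i = N / (N + 1))
    (a2 : ∀ i ∈ Lᶜ, a i = -(N / (N - 1))) :
    (∏ i, (1 + h * a i)) * T h a = M k N h := by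
  have hk' : (1:ℝ) ≤ k := by exact_mod_cast hk
  have h7 : 7 ≤ N := by linarith
  have hN0 : 0 < N := by linarith
  have hh : N * (N * h) ≤ 4 := by
    rw [le_div_iff₀ (by positivity)] at h1; linarith
  have t0 : 0 ≤ N * h := by positivity
  have t1 : N * h ≤ 4 / 7 := by nlinarith
  obtain ⟨x, hx⟩ : ∃ x, x = 1 / N + h := ⟨_, rfl⟩
  have hs : N * x = 1 + N * h := by rw [hx]; field_simp
  have x0 : 0 ≤ x := by rw [hx]; positivity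
  have x1 : x < 1 := by nlinarith
  have n1 : N + 1 ≠ 0 := by linarith
  have n2 : N - 1 ≠ 0 := by linarith
  have y1 : 1 + x ≠ 0 := by linarith
  have y2 : 1 - x ≠ 0 := by linarith
  have hh' : h = x - 1 / N := by linarith
  have d1 : ∀ i ∈ L, 1 + h * a i = (1 + x) / (1 + 1 / N) := by
    intro i hi
    rw [a1 i hi, hh']; field_simp; ring
  have d2 : ∀ i ∈ Lᶜ, 1 + h * a i = (1 - x) / (1 - 1 / N) := by
    intro i hi
    rw [a2 i hi, hh']; field_simp; ring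
  have v1 : ∀ i ∈ L, a i / (1 + h * a i) = 1 / (1 + x) := by
    intro i hi
    rw [d1 i hi, a1 i hi]; field_simp
  have v2 : ∀ i ∈ Lᶜ, a i / (1 + h * a i) = -(1 / (1 - x)) := by
    intro i hi
    rw [d2 i hi, a2 i hi]; field_simp
  unfold T M F
  rw [← hx, ← Finset.prod_mul_prod_compl L, sum_ite' L, sum_ite' L (fun i => a i / (1 + h * a i)),
    Finset.prod_congr rfl d1, Finset.prod_congr rfl d2, Finset.sum_congr rfl v1,
    Finset.sum_congr rfl v2,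
    Finset.sum_congr rfl (fun i hi => congrArg (· ^ 2) (v1 i hi)),
    Finset.sum_congr rfl (fun i hi => congrArg (· ^ 2) (v2 i hi))]
  simp only [Finset.prod_const, Finset.sum_const, hL, hR, nsmul_eq_mul]
  have e1 : 1 - x^2 = (1 + x) * (1 - x) := by ring
  have e2 : 1 - 1 / N^2 = (1 + 1 / N) * (1 - 1 / N) := by field_simp; ring
  have z1 : 1 + 1 / N ≠ 0 := by positivity
  have z2 : 1 - 1 / N ≠ 0 := by
    have : 1 / N < 1 := by rw [div_lt_one hN0]; linarith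
    linarith
  rw [e1, e2]
  obtain ⟨A, hA⟩ : ∃ A, A = 1 + 1 / N := ⟨_, rfl⟩
  obtain ⟨B, hB⟩ : ∃ B, B = 1 - 1 / N := ⟨_, rfl⟩
  rw [← hA] at z1 ⊢
  rw [← hB] at z2 ⊢
  obtain ⟨U, hU⟩ : ∃ U, U = 1 + x := ⟨_, rfl⟩
  obtain ⟨V, hV⟩ : ∃ V, V = 1 - x := ⟨_, rfl⟩
  rw [← hU] at y1 ⊢
  rw [← hV] at y2 ⊢
  simp only [div_pow, mul_pow, pow_add]
  obtain ⟨p, hp⟩ : ∃ p, p = A^k := ⟨_, rfl⟩
  obtain ⟨q, hq⟩ : ∃ q, q = B^k := ⟨_, rfl⟩
  have z3 : p ≠ 0 := by rw [hp]; positivity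
  have z4 : q ≠ 0 := by rw [hq]; positivity
  rw [← hp, ← hq]
  push_cast
  field_simp
  rw [hU, hV]
  ring

end Pool.Agent.H.MP_d240f8_an
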