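import Mathlib
import Pool.Agent.H.MP_d240f8_an.D

namespace Pool.Agent.H.MP_d240f8_an
open Finset

variable {ι : Type*} [Fintype ι] [DecidableEq ι]

theorem side (r : ι → ℝ) (x : ℝ) (hr : ∀ i, -1 ≤ r i ∧ r i ≤ 1) (L : Finset ι)
    (l1 : ∀ i ∈ L, r i < x) (l2 : ∀ i ∈ Lᶜ, x < r i) (h0 : ∑ i, 1 / (x - r i) = 0) :
    ∑ i ∈ Lᶜ, 1 / (x - r i) = -∑ i ∈ L, 1 / (x - r i) ∧
      (L.card : ℝ) + (Lᶜ.card : ℝ) ≤ 2 * ∑ i ∈ L, 1 / (x - r i) := by
  rw [sum_ite' L] at h0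
  refine ⟨by linarith, ?_⟩
  have a1 : ∑ i ∈ L, (1:ℝ) ≤ ∑ i ∈ L, 1 / (x - r i) * (1 + x) := by
    refine Finset.sum_le_sum (fun i hi => ?_)
    have := l1 i hi
    rw [div_mul_eq_mul_div, le_div_iff₀ (by linarith)]
    linarith [(hr i).1]
  have a2 : ∑ i ∈ Lᶜ, (1:ℝ) ≤ ∑ i ∈ Lᶜ, -(1 / (x - r i) * (1 - x)) := by
    refine Finset.sum_le_sum (fun i hi => ?_)
    have := l2 i hi
    have e : -(1 / (x - r i) * (1 - x)) = (1 - x) / (r i - x) := by
      have : x - r i ≠ 0 := by linarith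
      have : r i - x ≠ 0 := by linarith
      field_simp; ring
    rw [e, le_div_iff₀ (by linarith)]
    linarith [(hr i).2]
  rw [← Finset.sum_mul] at a1
  rw [Finset.sum_neg_distrib, ← Finset.sum_mul] at a2
  simp only [Finset.sum_const, nsmul_eq_mul, mul_one] at a1 a2
  have e : ∑ i ∈ Lᶜ, 1 / (x - r i) = -∑ i ∈ L, 1 / (x - r i) := by linarith
  rw [e] at a2
  linarith

omit [DecidableEq ι] in
theorem G_at (r : ι → ℝ) (x : ℝ) (h0 : ∑ i, 1 / (x - r i) = 0) :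
    G r x = |∏ i, (x - r i)| * ∑ i, (1 / (x - r i))^2 := by
  unfold G
  rw [h0, abs_sub_comm]
  simp only [ne_eq, OfNat.ofNat_ne_zero, not_false_eq_true, zero_pow, sub_zero]
  rw [abs_of_nonneg (Finset.sum_nonneg (fun i _ => sq_nonneg (1 / (x - r i))))]

omit [DecidableEq ι] in
theorem pos_abs (r : ι → ℝ) (x : ℝ) (hx : ∀ i, x ≠ r i) : 0 < |∏ i, (x - r i)| :=
  abs_pos.mpr (Finset.prod_ne_zero_iff.mpr (fun i _ => sub_ne_zero.mpr (hx i)))

theorem case_far (k : ℕ) (hk : 1 ≤ k) (N : ℝ) (hN : N = 2 * k + 5) (m : ℝ)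
    (hm : m * (N^2 - 9) < N^3) (r : ι → ℝ) (x : ℝ) (hr : ∀ i, -1 ≤ r i ∧ r i ≤ 1) (L : Finset ι)
    (l1 : ∀ i ∈ L, r i < x) (l2 : ∀ i ∈ Lᶜ, x < r i) (h0 : ∑ i, 1 / (x - r i) = 0)
    (hc : L.card + Lᶜ.card = 2 * k + 5) (c1 : L.card ≠ k + 3) (c2 : L.card ≠ k + 2) :
    m < ∑ i, (1 / (x - r i))^2 := by
  have hk' : (1:ℝ) ≤ k := by exact_mod_cast hk
  have h7 : 7 ≤ N := by linarith
  obtain ⟨s1, s2⟩ := side r x hr L l1 l2 h0
  have hc' : (L.card : ℝ) + (Lᶜ.card : ℝ) = N := by rw [hN]; exact_mod_cast hc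
  have q1 := sq_sum_le_card_mul_sum_sq (s := L) (f := fun i => 1 / (x - r i))
  have q2 := sq_sum_le_card_mul_sum_sq (s := Lᶜ) (f := fun i => 1 / (x - r i))
  rw [s1, neg_sq] at q2
  rw [sum_ite' L]
  have hab : 4 * ((L.card : ℝ) * (Lᶜ.card : ℝ)) ≤ N^2 - 9 := by
    have : 9 ≤ ((L.card : ℝ) - (Lᶜ.card : ℝ))^2 := by
      rcases (by omega : L.card + 3 ≤ Lᶜ.card ∨ Lᶜ.card + 3 ≤ L.card) with h | h
      · have : (L.card : ℝ) + 3 ≤ Lᶜ.card := by exact_mod_cast h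
        nlinarith
      · have : (Lᶜ.card : ℝ) + 3 ≤ L.card := by exact_mod_cast h
        nlinarith
    rw [← hc']; nlinarith
  obtain ⟨a, ha⟩ : ∃ a : ℝ, a = L.card := ⟨_, rfl⟩
  obtain ⟨b, hb⟩ : ∃ b : ℝ, b = Lᶜ.card := ⟨_, rfl⟩
  have a0 : 0 ≤ a := by rw [ha]; positivity
  have b0 : 0 ≤ b := by rw [hb]; positivity
  rw [← ha] at q1 hab hc' s2
  rw [← hb] at q2 hab hc' s2
  obtain ⟨S, hS⟩ : ∃ S, S = ∑ i ∈ L, 1 / (x - r i) := ⟨_, rfl⟩
  obtain ⟨A, hA⟩ : ∃ A, A = ∑ i ∈ L, (1 / (x - r i))^2 := ⟨_, rfl⟩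
  obtain ⟨B, hB⟩ : ∃ B, B = ∑ i ∈ Lᶜ, (1 / (x - r i))^2 := ⟨_, rfl⟩
  have A0 : 0 ≤ A := by rw [hA]; exact Finset.sum_nonneg (fun i _ => sq_nonneg _)
  have B0 : 0 ≤ B := by rw [hB]; exact Finset.sum_nonneg (fun i _ => sq_nonneg _)
  rw [← hS] at q1 q2 s2
  rw [← hA] at q1 ⊢
  rw [← hB] at q2 ⊢
  rw [hc'] at s2
  have p1 := mul_le_mul_of_nonneg_left q1 b0
  have p2 := mul_le_mul_of_nonneg_left q2 a0
  have p3 : N^2 ≤ 4 * S^2 := by nlinarith
  have p4 := mul_le_mul_of_nonneg_left p3 (by linarith : 0 ≤ N)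
  have p5 := mul_le_mul_of_nonneg_left hab (add_nonneg A0 B0)
  have p6 : N * S^2 ≤ a * b * (A + B) := by rw [← hc']; linarith
  refine lt_of_mul_lt_mul_right (a := N^2 - 9) ?_ (by nlinarith)
  linarith

theorem case_end (k : ℕ) (hk : 1 ≤ k) (N : ℝ) (hN : N = 2 * k + 5) (m : ℝ)
    (hm : m * (N^2 - 9) < N^3) (r : ι → ℝ) (hr : ∀ i, -1 ≤ r i ∧ r i ≤ 1)
    (hx : ∀ i, 1 ≠ r i) (hc : Fintype.card ι = 2 * k + 5) :
    m * |∏ i, (1 - r i)| < G r 1 := by
  have hk' : (1:ℝ) ≤ k := by exact_mod_cast hk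
  have h7 : 7 ≤ N := by linarith
  have hc' : (Fintype.card ι : ℝ) = N := by rw [hN]; exact_mod_cast hc
  have u1 : ∀ i, 1 / 2 ≤ 1 / (1 - r i) := by
    intro i
    have : r i < 1 := lt_of_le_of_ne (hr i).2 (hx i).symm
    exact one_div_le_one_div_of_le (by linarith) (by linarith [(hr i).1])
  have e : (∑ i, 1 / (1 - r i))^2 - ∑ i, (1 / (1 - r i))^2 =
      ∑ i, 1 / (1 - r i) * ∑ j ∈ univ.erase i, 1 / (1 - r j) := by
    rw [sq, Finset.sum_mul, ← Finset.sum_sub_distrib]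
    refine Finset.sum_congr rfl (fun i _ => ?_)
    rw [← Finset.add_sum_erase univ (fun j => 1 / (1 - r j)) (Finset.mem_univ i)]
    ring
  have b : ∀ i, 1 / 2 * ((N - 1) / 2) ≤ 1 / (1 - r i) * ∑ j ∈ univ.erase i, 1 / (1 - r j) := by
    intro i
    have b1 : ∑ j ∈ univ.erase i, (1/2 : ℝ) ≤ ∑ j ∈ univ.erase i, 1 / (1 - r j) :=
      Finset.sum_le_sum (fun j _ => u1 j)
    rw [Finset.sum_const, Finset.card_erase_of_mem (Finset.mem_univ i), Finset.card_univ, hc,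
      nsmul_eq_mul] at b1
    have b2 : ((2 * k + 5 - 1 : ℕ) : ℝ) = N - 1 := by
      rw [show 2 * k + 5 - 1 = 2 * k + 4 by omega, hN]; push_cast; ring
    rw [b2] at b1
    exact mul_le_mul (u1 i) (by linarith) (by linarith) (by linarith [u1 i])
  have b3 := Finset.sum_le_sum (s := univ) (fun i _ => b i)
  rw [Finset.sum_const, Finset.card_univ, nsmul_eq_mul, hc', ← e] at b3
  have b4 : m < N * (1 / 2 * ((N - 1) / 2)) := by
    refine lt_of_mul_lt_mul_right (a := N^2 - 9) (hm.trans_le ?_) (by nlinarith)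
    have : 0 ≤ N * (N^3 - 5 * N^2 - 9 * N + 9) := by
      refine mul_nonneg (by linarith) ?_
      nlinarith [sq_nonneg N]
    nlinarith
  unfold G
  rw [mul_comm]
  exact mul_lt_mul_of_pos_left (b4.trans_le (b3.trans (le_abs_self _))) (pos_abs r 1 hx)

theorem case_mid (k : ℕ) (hk : 1 ≤ k) (N : ℝ) (hN : N = 2 * k + 5) (h : ℝ) (h0 : 0 ≤ h)
    (h1 : h ≤ 4 / N^2) (hM : 0 < M k N h) (r : ι → ℝ) (x : ℝ) (hr : ∀ i, -1 ≤ r i ∧ r i ≤ 1)
    (x1 : -1 ≤ x) (x2 : x ≤ 1) (L : Finset ι)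
    (l1 : ∀ i ∈ L, r i < x) (l2 : ∀ i ∈ Lᶜ, x < r i) (hs : ∑ i, 1 / (x - r i) = 0)
    (hL : L.card = k + 3) (hR : Lᶜ.card = k + 2) :
    (∃ t, -1 ≤ t ∧ t ≤ 1 ∧ (∀ i, t ≠ r i) ∧ M k N h * |∏ i, (x - r i)| < G r t) ∨
      ((∀ i ∈ L, r i = -1) ∧ ∀ i ∈ Lᶜ, r i = 1) := by
  have hk' : (1:ℝ) ≤ k := by exact_mod_cast hk
  have h7 : 7 ≤ N := by linarith
  have hN0 : 0 < N := by linarith
  have hN2 : 0 < N^2 - 1 := by nlinarith
  have n1 : N + 1 ≠ 0 := by linarith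
  have n2 : N - 1 ≠ 0 := by linarith
  have hx : ∀ i, x ≠ r i := by
    intro i
    by_cases hi : i ∈ L
    · exact (l1 i hi).ne'
    · exact (l2 i (Finset.mem_compl.mpr hi)).ne
  have hp := pos_abs r x hx
  by_cases hb : M k N h < ∑ i, (1 / (x - r i))^2
  · left
    refine ⟨x, x1, x2, hx, ?_⟩
    rw [G_at r x hs, mul_comm]
    exact mul_lt_mul_of_pos_left hb hp
  rw [not_lt] at hb
  obtain ⟨s1, s2⟩ := side r x hr L l1 l2 hs
  rw [hL, hR] at s2
  push_cast at s2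
  obtain ⟨lam, hlam⟩ : ∃ lam, lam = 2 * (∑ i ∈ L, 1 / (x - r i)) / N := ⟨_, rfl⟩
  have lam1 : 1 ≤ lam := by rw [hlam, le_div_iff₀ hN0]; linarith
  have lam0 : lam ≠ 0 := by linarith
  have sL : ∑ i ∈ L, 1 / (x - r i) = lam * (N / 2) := by rw [hlam]; field_simp
  obtain ⟨a, ha⟩ : ∃ a : ι → ℝ, ∀ i, a i = if i ∈ L then N / (N + 1) else -(N / (N - 1)) :=
    ⟨_, fun _ => rfl⟩
  have a1 : ∀ i ∈ L, a i = N / (N + 1) := fun i hi => by rw [ha, if_pos hi]
  have a2 : ∀ i ∈ Lᶜ, a i = -(N / (N - 1)) := fun i hi => by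
    rw [ha, if_neg (Finset.mem_compl.mp hi)]
  obtain ⟨w, hw⟩ : ∃ w : ι → ℝ, ∀ i, w i = 1 / (x - r i) / lam - a i := ⟨_, fun _ => rfl⟩
  have cL : (L.card : ℝ) = (N + 1) / 2 := by rw [hL]; push_cast; linarith
  have cR : (Lᶜ.card : ℝ) = (N - 1) / 2 := by rw [hR]; push_cast; linarith
  have w1 : ∑ i ∈ L, w i = 0 := by
    rw [Finset.sum_congr rfl (fun i _ => hw i), Finset.sum_sub_distrib, ← Finset.sum_div, sL,
      Finset.sum_congr rfl a1, Finset.sum_const, nsmul_eq_mul, cL]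
    field_simp; ring
  have w2 : ∑ i ∈ Lᶜ, w i = 0 := by
    rw [Finset.sum_congr rfl (fun i _ => hw i), Finset.sum_sub_distrib, ← Finset.sum_div, s1, sL,
      Finset.sum_congr rfl a2, Finset.sum_const, nsmul_eq_mul, cR]
    field_simp; ring
  have hZ : ∀ g : ℝ → ℝ, ∑ i, g (a i) * w i = 0 := by
    intro g
    rw [sum_ite' L, Finset.sum_congr rfl (fun i hi => by rw [a1 i hi]),
      Finset.sum_congr (s₁ := Lᶜ) rfl (fun i hi => by rw [a2 i hi]), ← Finset.mul_sum,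
      ← Finset.mul_sum, w1, w2]
    simp
  have sa : ∑ i, a i = 0 := by
    rw [sum_ite' L, Finset.sum_congr rfl a1, Finset.sum_congr rfl a2, Finset.sum_const,
      Finset.sum_const, nsmul_eq_mul, nsmul_eq_mul, cL, cR]
    field_simp; ring
  have sa2 : ∑ i, a i^2 = N^3 / (N^2 - 1) := by
    rw [sum_ite' L, Finset.sum_congr rfl (fun i hi => congrArg (· ^ 2) (a1 i hi)),
      Finset.sum_congr rfl (fun i hi => congrArg (· ^ 2) (a2 i hi)), Finset.sum_const,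
      Finset.sum_const, nsmul_eq_mul, nsmul_eq_mul, cL, cR,
      show N^2 - 1 = (N + 1) * (N - 1) by ring]
    field_simp; ring
  have ab : ∀ i, |a i| ≤ 7/6 := by
    intro i
    rw [ha]
    split_ifs
    · rw [abs_of_pos (by positivity), div_le_iff₀ (by linarith)]; linarith
    · rw [abs_neg, abs_of_pos (div_pos hN0 (by linarith)), div_le_iff₀ (by linarith)]; linarith
  have hh : h * N^2 ≤ 4 := by rwa [le_div_iff₀ (by positivity)] at h1
  have h12 : h ≤ 1/12 := by nlinarith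
  have hs2 : h^2 * ∑ i, a i^2 ≤ 1/20 := by
    rw [sa2, ← mul_div_assoc, div_le_iff₀ hN2]
    refine le_of_mul_le_mul_right (a := N) ?_ hN0
    have : (h * N^2)^2 ≤ 16 := by nlinarith [mul_nonneg h0 (sq_nonneg N)]
    nlinarith [sq_nonneg N]
  have aw : ∀ i, a i + w i = 1 / (x - r i) / lam := fun i => by rw [hw]; ring
  have hW : ∑ i, w i^2 ≤ 9/25 := by
    have e1 : ∑ i, (a i + w i)^2 = ∑ i, a i^2 + ∑ i, w i^2 := by
      have := hZ (fun t => 2 * t)
      rw [← Finset.sum_add_distrib, ← add_zero (∑ i, (a i^2 + w i^2)), ← this,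
        ← Finset.sum_add_distrib]
      exact Finset.sum_congr rfl (fun i _ => by ring)
    have e2 : ∑ i, (a i + w i)^2 ≤ ∑ i, (1 / (x - r i))^2 := by
      refine Finset.sum_le_sum (fun i _ => ?_)
      rw [aw, div_pow]
      exact div_le_self (sq_nonneg _) (one_le_pow₀ lam1)
    have e3 := M_le k hk N hN h h0 h1
    have e4 : 16 * N^2 / (N^2 - 1)^2 ≤ 9/25 := by
      rw [div_le_iff₀ (by positivity)]
      have : 49 ≤ N^2 := by nlinarith
      nlinarith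
    linarith
  have hE := M_eq L k hk N hN hL hR h h0 h1 a a1 a2
  have fpos : 0 < ∏ i, (1 + h * a i) := by
    refine Finset.prod_pos (fun i _ => ?_)
    have := abs_le.mp (ab i)
    nlinarith
  have hT : 0 ≤ T h a := by
    rw [← hE] at hM
    exact ((mul_pos_iff_of_pos_left fpos).mp hM).le
  obtain ⟨c1, c2⟩ := core a w h hZ sa ab h0 h12 hs2 hW hT
  have W0 : 0 ≤ ∑ i, w i^2 := Finset.sum_nonneg (fun i _ => sq_nonneg _)
  by_cases hex : lam = 1 ∧ ∑ i, w i^2 = 0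
  · right
    have z : ∀ i, 1 / (x - r i) = a i := by
      intro i
      have := (Finset.sum_eq_zero_iff_of_nonneg (fun i _ => sq_nonneg (w i))).mp hex.2 i
        (Finset.mem_univ i)
      have := aw i
      rw [pow_eq_zero_iff (by norm_num)] at *
      rw [hex.1] at this
      linarith
    have z1 : ∀ i ∈ L, r i = x - (N + 1) / N := by
      intro i hi
      have := z i
      rw [a1 i hi, div_eq_div_iff (sub_ne_zero.mpr (hx i)) n1] at this
      field_simp; linarith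
    have z2 : ∀ i ∈ Lᶜ, r i = x + (N - 1) / N := by
      intro i hi
      have := z i
      rw [a2 i hi, ← neg_div, div_eq_div_iff (sub_ne_zero.mpr (hx i)) n2] at this
      field_simp; linarith
    obtain ⟨i, hi⟩ := Finset.card_pos.mp (by omega : 0 < L.card)
    obtain ⟨j, hj⟩ := Finset.card_pos.mp (by omega : 0 < Lᶜ.card)
    have y1 := (hr i).1
    have y2 := (hr j).2
    rw [z1 i hi] at y1
    rw [z2 j hj] at y2
    have y3 : (N + 1) / N + (N - 1) / N = 2 := by field_simp; ring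
    exact ⟨fun i hi => by rw [z1 i hi]; linarith, fun i hi => by rw [z2 i hi]; linarith⟩
  · left
    have f1 : ∀ i, x + h / lam - r i = (x - r i) * (1 + h * (a i + w i)) := by
      intro i
      have := sub_ne_zero.mpr (hx i)
      rw [aw]; field_simp; ring
    have f2 : ∀ i, 1 / (x + h / lam - r i) = lam * ((a i + w i) / (1 + h * (a i + w i))) := by
      intro i
      have p1 := sub_ne_zero.mpr (hx i)
      have p2 := (c1 i).ne'
      rw [f1]
      obtain ⟨e, he⟩ : ∃ e, e = 1 + h * (a i + w i) := ⟨_, rfl⟩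
      rw [← he] at p2 ⊢
      rw [aw]; field_simp
    refine ⟨x + h / lam, ?_, ?_, fun i => ?_, ?_⟩
    · have : 0 ≤ h / lam := by positivity
      linarith
    · obtain ⟨j, hj⟩ := Finset.card_pos.mp (by omega : 0 < Lᶜ.card)
      have := f1 j
      have := mul_neg_of_neg_of_pos (sub_neg.mpr (l2 j hj)) (c1 j)
      linarith [(hr j).2]
    · have := f1 i
      have := mul_ne_zero (sub_ne_zero.mpr (hx i)) (c1 i).ne'
      intro hh; apply this; linarith
    · unfold G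
      rw [Finset.prod_congr rfl (fun i _ => f1 i), Finset.prod_mul_distrib,
        Finset.sum_congr rfl (fun i _ => f2 i),
        Finset.sum_congr rfl (fun i _ => congrArg (· ^ 2) (f2 i)), abs_mul, mul_comm, mul_assoc]
      refine mul_lt_mul_of_pos_left ?_ hp
      have g1 : (∑ i, lam * ((a i + w i) / (1 + h * (a i + w i))))^2 -
          ∑ i, (lam * ((a i + w i) / (1 + h * (a i + w i))))^2 =
          -(lam^2 * T h (fun i => a i + w i)) := by
        unfold T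
        simp only [mul_pow, ← Finset.mul_sum]
        ring
      rw [g1, abs_neg, ← abs_mul]
      refine lt_of_lt_of_le ?_ (le_abs_self _)
      rw [mul_add, hE] at c2
      have g2 : 0 ≤ (∏ i, (1 + h * a i)) * ((∑ i, w i^2) / 5) := by positivity
      have g3 : 1 ≤ lam^2 := one_le_pow₀ lam1
      obtain ⟨Y, hY⟩ : ∃ Y, Y = (∏ i, (1 + h * (a i + w i))) * T h (fun i => a i + w i) := ⟨_, rfl⟩
      have g4 : (∏ i, (1 + h * (a i + w i))) * (lam^2 * T h (fun i => a i + w i)) = lam^2 * Y := by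
        rw [hY]; ring
      rw [g4]
      rw [← hY] at c2
      rcases not_and_or.mp hex with q | q
      · have : 1 < lam^2 := one_lt_pow₀ (lt_of_le_of_ne lam1 (Ne.symm q)) (by norm_num)
        nlinarith
      · have : 0 < (∏ i, (1 + h * a i)) * ((∑ i, w i^2) / 5) :=
          mul_pos fpos (div_pos (lt_of_le_of_ne W0 (Ne.symm q)) (by norm_num))
        nlinarith

omit [DecidableEq ι] in
theorem G_neg (r : ι → ℝ) (t : ℝ) : G (fun i => -r i) (-t) = G r t := by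
  unfold G
  have e : ∀ i, -t - -r i = -(t - r i) := fun i => by ring
  simp only [e, Finset.abs_prod, abs_neg, div_neg, neg_sq, Finset.sum_neg_distrib]

omit [DecidableEq ι] in
theorem P_neg (r : ι → ℝ) (t : ℝ) : |∏ i, (-t - -r i)| = |∏ i, (t - r i)| := by
  have e : ∀ i, -t - -r i = -(t - r i) := fun i => by ring
  simp only [e, Finset.abs_prod, abs_neg]

theorem key (k : ℕ) (hk : 1 ≤ k) (N : ℝ) (hN : N = 2 * k + 5) (h : ℝ) (h0 : 0 ≤ h)
    (h1 : h ≤ 4 / N^2) (hM : 0 < M k N h) (r : ι → ℝ) (x : ℝ) (hr : ∀ i, -1 ≤ r i ∧ r i ≤ 1)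
    (x1 : -1 ≤ x) (x2 : x ≤ 1) (hx : ∀ i, x ≠ r i) (hc : Fintype.card ι = 2 * k + 5)
    (hs : x = 1 ∨ x = -1 ∨ ∑ i, 1 / (x - r i) = 0) :
    (∃ t, -1 ≤ t ∧ t ≤ 1 ∧ (∀ i, t ≠ r i) ∧ M k N h * |∏ i, (x - r i)| < G r t) ∨
      ∃ L : Finset ι, (L.card = k + 3 ∨ L.card = k + 2) ∧
        (∀ i ∈ L, r i = -1) ∧ ∀ i ∈ Lᶜ, r i = 1 := by
  have hm := M_lt k hk N hN h h0 h1
  have hr' : ∀ i, -1 ≤ -r i ∧ -r i ≤ 1 := fun i => ⟨by linarith [(hr i).2], by linarith [(hr i).1]⟩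
  rcases hs with rfl | rfl | hs
  · exact Or.inl ⟨1, x1, x2, hx, case_end k hk N hN _ hm r hr hx hc⟩
  · refine Or.inl ⟨-1, x1, x2, hx, ?_⟩
    have := case_end k hk N hN _ hm (fun i => -r i) hr'
      (fun i hi => hx i (by linarith)) hc
    rw [← G_neg r, ← P_neg r, neg_neg]
    exact this
  · obtain ⟨L, hL⟩ : ∃ L : Finset ι, ∀ i, i ∈ L ↔ r i < x :=
      ⟨univ.filter (fun i => r i < x), fun i => by simp⟩
    have l1 : ∀ i ∈ L, r i < x := fun i hi => (hL i).mp hi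
    have l2 : ∀ i ∈ Lᶜ, x < r i := fun i hi =>
      lt_of_le_of_ne (not_lt.mp (fun q => Finset.mem_compl.mp hi ((hL i).mpr q))) (hx i)
    have cc : L.card + Lᶜ.card = 2 * k + 5 := by rw [Finset.card_add_card_compl, hc]
    by_cases c1 : L.card = k + 3
    · rcases case_mid k hk N hN h h0 h1 hM r x hr x1 x2 L l1 l2 hs c1 (by omega) with q | q
      · exact Or.inl q
      · exact Or.inr ⟨L, Or.inl c1, q⟩
    by_cases c2 : L.card = k + 2
    · have hs' : ∑ i, 1 / (-x - -r i) = 0 := by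
        have e : ∀ i, -x - -r i = -(x - r i) := fun i => by ring
        simp only [e, div_neg, Finset.sum_neg_distrib, hs, neg_zero]
      rcases case_mid k hk N hN h h0 h1 hM (fun i => -r i) (-x) hr' (by linarith) (by linarith)
        Lᶜ (fun i hi => neg_lt_neg (l2 i hi))
        (fun i hi => neg_lt_neg (l1 i (by simpa using hi))) hs' (by omega)
        (by rw [compl_compl]; exact c2) with ⟨t, t1, t2, t3, t4⟩ | ⟨q1, q2⟩
      · refine Or.inl ⟨-t, by linarith, by linarith, fun i hi => t3 i (by linarith), ?_⟩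
        rw [← G_neg r, ← P_neg r, neg_neg]
        exact t4
      · refine Or.inr ⟨L, Or.inr c2, fun i hi => ?_, fun i hi => ?_⟩
        · have := q2 i (by simpa using hi)
          linarith
        · have := q1 i hi
          linarith
    · refine Or.inl ⟨x, x1, x2, hx, ?_⟩
      rw [G_at r x hs, mul_comm]
      exact mul_lt_mul_of_pos_left (case_far k hk N hN _ hm r x hr L l1 l2 hs cc c1 c2)
        (pos_abs r x hx)

end Pool.Agent.H.MP_d240f8_an
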