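import Mathlib
import Pool.Agent.H.MP_d240f8_an.E

namespace Pool.Agent.H.MP_d240f8_an
open Finset Polynomial

theorem ev_prod {ι : Type*} (s : Finset ι) (r : ι → ℝ) (t : ℝ) (ht : ∀ i, t ≠ r i) :
    (derivative (∏ i ∈ s, (X - C (r i)))).eval t =
      (∏ i ∈ s, (t - r i)) * ∑ i ∈ s, 1 / (t - r i) ∧
    (derivative (derivative (∏ i ∈ s, (X - C (r i))))).eval t =
      (∏ i ∈ s, (t - r i)) * ((∑ i ∈ s, 1 / (t - r i))^2 - ∑ i ∈ s, (1 / (t - r i))^2) := by
  classical
  induction s using Finset.induction_on with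
  | empty => simp
  | insert j s hj ih =>
    obtain ⟨i1, i2⟩ := ih
    have e0 : (∏ i ∈ s, (X - C (r i))).eval t = ∏ i ∈ s, (t - r i) := by
      simp [eval_prod]
    have z := sub_ne_zero.mpr (ht j)
    simp only [Finset.prod_insert hj, Finset.sum_insert hj, derivative_mul, derivative_sub,
      derivative_X, derivative_C, sub_zero, one_mul, derivative_add, eval_add, eval_mul, eval_sub,
      eval_X, eval_C, i1, i2, e0, map_add]
    constructor
    · field_simp
    · field_simp; ring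

theorem bdd (P : ℝ[X]) :
    BddAbove (Set.range fun x : Set.Icc (-1:ℝ) 1 => |P.eval (x:ℝ)|) := by
  have : Continuous fun x : Set.Icc (-1:ℝ) 1 => |P.eval (x:ℝ)| :=
    (P.continuous.comp continuous_subtype_val).abs
  exact (isCompact_range this).bddAbove

noncomputable def nm (P : ℝ[X]) : ℝ := ⨆ x : Set.Icc (-1:ℝ) 1, |P.eval (x:ℝ)|

theorem le_nm (P : ℝ[X]) (x : ℝ) (h1 : -1 ≤ x) (h2 : x ≤ 1) : |P.eval x| ≤ nm P :=
  le_ciSup (bdd P) ⟨x, h1, h2⟩

theorem ex_nm (P : ℝ[X]) : ∃ x, -1 ≤ x ∧ x ≤ 1 ∧ nm P = |P.eval x| := by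
  have hc : ContinuousOn (fun x => |P.eval x|) (Set.Icc (-1:ℝ) 1) :=
    P.continuous.abs.continuousOn
  obtain ⟨x, hx, hm⟩ := isCompact_Icc.exists_isMaxOn ⟨0, by norm_num⟩ hc
  refine ⟨x, hx.1, hx.2, le_antisymm ?_ (le_nm P x hx.1 hx.2)⟩
  have : Nonempty (Set.Icc (-1:ℝ) 1) := ⟨⟨x, hx⟩⟩
  exact ciSup_le (fun y => hm y.2)

theorem nm_C (c : ℝ) (P : ℝ[X]) : nm (C c * P) = |c| * nm P := by
  unfold nm
  rw [Real.mul_iSup_of_nonneg (abs_nonneg c)]
  simp only [eval_mul, eval_C, abs_mul]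

theorem nm_le_neg (P R : ℝ[X]) (h : ∀ x, |R.eval x| = |P.eval (-x)|) : nm R ≤ nm P := by
  obtain ⟨x, x1, x2, e⟩ := ex_nm R
  rw [e, h]
  exact le_nm P _ (by linarith) (by linarith)

theorem nm_neg (P R : ℝ[X]) (h : ∀ x, |R.eval x| = |P.eval (-x)|) : nm R = nm P :=
  le_antisymm (nm_le_neg P R h) (nm_le_neg R P (fun x => by rw [h, neg_neg]))

theorem nm_pos (P : ℝ[X]) (hP : P ≠ 0) : 0 < nm P := by
  by_contra hh
  apply hP
  refine P.eq_zero_of_infinite_isRoot ((Set.Icc_infinite (by norm_num : (-1:ℝ) < 1)).mono ?_)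
  intro x hx
  have := le_nm P x hx.1 hx.2
  exact abs_nonpos_iff.mp (this.trans (not_lt.mp hh))

theorem crit (P : ℝ[X]) (x : ℝ) (x1 : -1 < x) (x2 : x < 1) (e : nm P = |P.eval x|)
    (h0 : P.eval x ≠ 0) : (derivative P).eval x = 0 := by
  have hm : IsLocalMax (fun y => (P * P).eval y) x := by
    filter_upwards [Icc_mem_nhds x1 x2] with y hy
    have := le_nm P y hy.1 hy.2
    rw [e] at this
    simp only [eval_mul]
    exact abs_le_iff_mul_self_le.mp this
  have := hm.hasDerivAt_eq_zero ((P * P).hasDerivAt x)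
  simp only [derivative_mul, eval_add, eval_mul] at this
  have h2 : P.eval x * (2 * (derivative P).eval x) = 0 := by linarith
  rcases mul_eq_zero.mp h2 with q | q
  · exact absurd q h0
  · linarith

noncomputable def Q (m : ℕ) : ℝ[X] := (1 - X)^m * (1 + X)^(m + 1)

theorem Q2 (k : ℕ) (x : ℝ) :
    (derivative (derivative (Q (k + 2)))).eval x = -(2 * (k + 2) * F k x) := by
  unfold Q F
  have e : 1 - x^2 = (1 - x) * (1 + x) := by ring
  rw [e, mul_pow]
  simp only [derivative_mul, derivative_pow, derivative_sub, derivative_add, derivative_one,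
    derivative_X, derivative_C, derivative_neg, derivative_zero, map_add, eval_add, eval_mul,
    eval_pow, eval_sub, eval_C, eval_X, eval_one, eval_zero, eval_neg, Nat.add_sub_cancel,
    zero_sub, zero_add, show k + 2 - 1 = k + 1 from rfl]
  push_cast
  ring

theorem Q0 (k : ℕ) (x : ℝ) : (Q (k + 2)).eval x = (1 + x) * (1 - x^2)^(k + 2) := by
  unfold Q
  have e : 1 - x^2 = (1 - x) * (1 + x) := by ring
  rw [e, mul_pow]
  simp only [eval_mul, eval_pow, eval_sub, eval_add, eval_X, eval_one]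
  ring

theorem Q_eq (m : ℕ) : Q m = C ((-1)^m) * ((X - C 1)^m * (X - C (-1))^(m + 1)) := by
  unfold Q
  rw [show (1 - X : ℝ[X]) = -1 * (X - C 1) by simp, mul_pow]
  simp [add_comm, mul_assoc]

theorem Q_neg (m : ℕ) : (Q m).comp (-X) = C ((-1)^(m+1)) * ((X - C (-1))^m * (X - C 1)^(m + 1)) := by
  unfold Q
  simp only [mul_comp, pow_comp, sub_comp, add_comp, one_comp, X_comp]
  rw [show (1 + -X : ℝ[X]) = -1 * (X - C 1) by simp [sub_eq_add_neg], mul_pow]
  simp only [map_pow, map_neg, map_one, sub_neg_eq_add, add_comm]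
  ring

theorem Q_cls (m : ℕ) : (Q m).natDegree = 2 * m + 1 ∧ (Q m).roots.card = 2 * m + 1 ∧
    ∀ x ∈ (Q m).roots, x ∈ Set.Icc (-1:ℝ) 1 := by
  have c : ((-1:ℝ))^m ≠ 0 := by positivity
  have m1 : ((X - C (1:ℝ))^m).Monic := (monic_X_sub_C _).pow _
  have m2 : ((X - C (-1:ℝ))^(m+1)).Monic := (monic_X_sub_C _).pow _
  have hr : (Q m).roots = m • {1} + (m + 1) • {-1} := by
    rw [Q_eq, roots_C_mul _ c, roots_mul (m1.mul m2).ne_zero, roots_pow, roots_pow,
      roots_X_sub_C, roots_X_sub_C]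
  refine ⟨?_, ?_, ?_⟩
  · rw [Q_eq, natDegree_C_mul c, m1.natDegree_mul m2, (monic_X_sub_C _).natDegree_pow,
      (monic_X_sub_C _).natDegree_pow, natDegree_X_sub_C, natDegree_X_sub_C]
    omega
  · rw [hr]; simp; omega
  · intro x hx
    rw [hr, Multiset.mem_add] at hx
    rcases hx with hx | hx
    · rw [Multiset.mem_singleton.mp (Multiset.mem_of_mem_nsmul hx)]; norm_num
    · rw [Multiset.mem_singleton.mp (Multiset.mem_of_mem_nsmul hx)]; norm_num

noncomputable def rt (P : ℝ[X]) : ℝ := nm (derivative (derivative P)) / nm P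

theorem rt_C (c : ℝ) (hc : c ≠ 0) (P : ℝ[X]) : rt (C c * P) = rt P := by
  unfold rt
  rw [derivative_C_mul, derivative_C_mul, nm_C, nm_C, mul_div_mul_left _ _ (abs_ne_zero.mpr hc)]

theorem rt_neg (P : ℝ[X]) : rt (P.comp (-X)) = rt P := by
  unfold rt
  rw [nm_neg P (P.comp (-X)) (fun x => by simp [eval_comp]),
    nm_neg (derivative (derivative P)) (derivative (derivative (P.comp (-X)))) (fun x => by
      simp [derivative_comp, eval_comp])]

theorem main (k : ℕ) (hk : 1 ≤ k) (P : ℝ[X]) (h1 : P.natDegree = 2 * (k + 2) + 1)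
    (h2 : P.roots.card = 2 * (k + 2) + 1) (h3 : ∀ x ∈ P.roots, x ∈ Set.Icc (-1:ℝ) 1) :
    rt (Q (k + 2)) < rt P ∨
      ∃ c : ℝ, c ≠ 0 ∧ (P = C c * Q (k + 2) ∨ P = C c * (Q (k + 2)).comp (-X)) := by
  classical
  obtain ⟨N, hN⟩ : ∃ N : ℝ, N = 2 * k + 5 := ⟨_, rfl⟩
  have hk' : (1:ℝ) ≤ k := by exact_mod_cast hk
  have h7 : 7 ≤ N := by linarith
  have hN0 : 0 < N := by linarith
  have P0 : P ≠ 0 := by rintro rfl; simp at h1
  have lc : P.leadingCoeff ≠ 0 := leadingCoeff_ne_zero.mpr P0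
  obtain ⟨y, y1, y2, hy⟩ := ex_nm (derivative (derivative (Q (k + 2))))
  obtain ⟨h, h0, hh, hF⟩ := F_max k hk N hN y y1 y2
  have kp : (0:ℝ) < 2 * (k + 2) := by positivity
  have n2 : nm (derivative (derivative (Q (k + 2)))) ≤ 2 * (k + 2) * F k (1 / N + h) := by
    rw [hy, Q2, abs_neg, abs_mul, abs_of_pos kp]
    exact mul_le_mul_of_nonneg_left hF kp.le
  have n3 : 2 * (k + 2) ≤ nm (derivative (derivative (Q (k + 2)))) := by
    have := le_nm (derivative (derivative (Q (k + 2)))) 0 (by norm_num) (by norm_num)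
    rw [Q2] at this
    simpa [F, abs_of_pos kp] using this
  have c0 : 0 < 1 - 1 / N^2 := by
    have : 1 / N^2 < 1 := by rw [div_lt_one (by positivity)]; nlinarith
    linarith
  have q0 : 0 < (1 + 1 / N) * (1 - 1 / N^2)^(k + 2) := by positivity
  have n1 : (1 + 1 / N) * (1 - 1 / N^2)^(k + 2) ≤ nm (Q (k + 2)) := by
    have b : 1 / N ≤ 1 := by rw [div_le_one hN0]; linarith
    have b2 : 0 < 1 / N := by positivity
    have := le_nm (Q (k + 2)) (1 / N) (by linarith) b
    rw [Q0, one_div_pow] at this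
    exact (le_abs_self _).trans this
  have hQ : rt (Q (k + 2)) ≤ M k N h :=
    div_le_div₀ (by linarith) n2 q0 n1
  have hM : 0 < M k N h := div_pos (by linarith) q0
  have eP : P = C P.leadingCoeff * ∏ i : P.roots, (X - C (i : ℝ)) := by
    have := C_leadingCoeff_mul_prod_multiset_X_sub_C (p := P) (h2.trans h1.symm)
    rw [← Multiset.map_univ P.roots (fun a => X - C a)] at this
    exact this.symm
  have hc : Fintype.card P.roots = 2 * k + 5 := by rw [Multiset.card_coe, h2]; ring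
  have hr : ∀ i : P.roots, -1 ≤ (i : ℝ) ∧ (i : ℝ) ≤ 1 := fun i => h3 i Multiset.coe_mem
  obtain ⟨r, hrr⟩ : ∃ r : P.roots → ℝ, ∀ i, r i = (i : ℝ) := ⟨_, fun _ => rfl⟩
  simp only [← hrr] at eP hr
  obtain ⟨c, hcc⟩ : ∃ c, c = P.leadingCoeff := ⟨_, rfl⟩
  rw [← hcc] at eP lc
  have ev : ∀ t, P.eval t = c * ∏ i, (t - r i) := by
    intro t
    conv_lhs => rw [eP]
    simp [eval_prod]
  obtain ⟨x, x1, x2, hx⟩ := ex_nm P
  have np := nm_pos P P0
  have px : P.eval x ≠ 0 := by rw [hx] at np; exact abs_pos.mp np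
  have xr : ∀ i, x ≠ r i := by
    intro i hi
    apply px
    rw [ev, Finset.prod_eq_zero (Finset.mem_univ i) (sub_eq_zero.mpr hi), mul_zero]
  have hs : x = 1 ∨ x = -1 ∨ ∑ i, 1 / (x - r i) = 0 := by
    by_cases a1 : x = 1
    · exact Or.inl a1
    by_cases a2 : x = -1
    · exact Or.inr (Or.inl a2)
    refine Or.inr (Or.inr ?_)
    have := crit P x (lt_of_le_of_ne x1 (Ne.symm a2)) (lt_of_le_of_ne x2 a1) hx px
    rw [eP, derivative_C_mul, eval_mul, eval_C, (ev_prod univ r x xr).1, ← mul_assoc, ← ev] at this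
    exact (mul_eq_zero.mp this).resolve_left px
  rcases key k hk N hN h h0 hh hM r x hr x1 x2 xr hc hs with ⟨t, t1, t2, t3, t4⟩ | ⟨L, l1, l2, l3⟩
  · left
    refine hQ.trans_lt ?_
    unfold rt
    rw [lt_div_iff₀ np]
    refine lt_of_lt_of_le ?_ (le_nm _ t t1 t2)
    have e2 : |(derivative (derivative P)).eval t| = |c| * G r t := by
      conv_lhs => rw [eP]
      rw [derivative_C_mul, derivative_C_mul, eval_mul, eval_C, (ev_prod univ r t t3).2, abs_mul,
        abs_mul]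
      rfl
    rw [e2, hx, ev, abs_mul, mul_left_comm]
    exact mul_lt_mul_of_pos_left t4 (abs_pos.mpr lc)
  · right
    have cc : L.card + Lᶜ.card = 2 * k + 5 := by rw [Finset.card_add_card_compl, hc]
    have e3 : ∏ i, (X - C (r i)) = (X - C (-1))^L.card * (X - C 1)^Lᶜ.card := by
      rw [← Finset.prod_mul_prod_compl L,
        Finset.prod_congr rfl (fun i hi => by rw [l2 i hi]),
        Finset.prod_congr (s₁ := Lᶜ) rfl (fun i hi => by rw [l3 i hi]),
        Finset.prod_const, Finset.prod_const]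
    rw [e3] at eP
    rcases l1 with l1 | l1
    · have l4 : Lᶜ.card = k + 2 := by omega
      refine ⟨c * (-1)^(k + 2), mul_ne_zero lc (by positivity), Or.inl ?_⟩
      rw [Q_eq, ← mul_assoc, ← C_mul, mul_assoc c, ← mul_pow, mul_comm ((X - C 1)^(k + 2))]
      rw [l1, l4] at eP
      simpa using eP
    · have l4 : Lᶜ.card = k + 2 + 1 := by omega
      refine ⟨c * (-1)^(k + 2 + 1), mul_ne_zero lc (by positivity), Or.inr ?_⟩
      rw [Q_neg, ← mul_assoc, ← C_mul, mul_assoc c, ← mul_pow]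
      rw [l1, l4] at eP
      simpa using eP

end Pool.Agent.H.MP_d240f8_an
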